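import Pool.Agent.Y703.CQ.Stm

/-!
# Project JQ: the joint exact proportion, for the twists of `X_0(14)` over multiquadratic fields

`W` is a fixed finite set of primes, `𝒰` a set of `M` different subsets of `W`. For the proportion
`c2 ^ M` of the sets `S` of the class all the symmetric differences `S ∆ U`, `U ∈ 𝒰`, are good.
Statements of the parts; everything which is not defined here is in `Pool.Agent.Y703.CQ.Stm`.
-/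

set_option autoImplicit false
set_option linter.unusedVariables false

open scoped Classical

namespace Pool.Agent.Y687.JQ

open Finset
open Pool.Agent.Y703.CX (sm la jj XX eL zz kk S_SIE)
open Pool.Agent.Y703.CQ

/-- jointly good -/
def GdJ (f : ℕ → ZMod 2) (𝒰 : Finset (Finset ℕ)) (S : Finset ℕ) : Prop :=
  ∀ U ∈ 𝒰, Gd f (symmDiff S U)

/-- the masks -/
def OkW (W : Finset ℕ) (𝒰 : Finset (Finset ℕ)) : Prop :=
  (∀ u ∈ W, u.Prime ∧ u ≠ 2 ∧ u ≠ 7) ∧ ∀ U ∈ 𝒰, U ⊆ W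

/-- FINAL: the proportion of the jointly good sets -/
def S_JDQ : Prop := ∀ (I K : Finset ℕ) (f : ℕ → ZMod 2) (W : Finset ℕ) (𝒰 : Finset (Finset ℕ)),
  Ok I K → OkW W 𝒰 → Filter.Tendsto
    (fun X : ℕ => (((SS I K X).filter (GdJ f 𝒰)).card : ℝ) / ((SS I K X).card : ℝ))
    Filter.atTop (nhds (c2 ^ 𝒰.card))

/-- FINAL, in terms of the numbers `D`. -/
def S_JDEN : Prop := ∀ (I K : Finset ℕ) (f : ℕ → ZMod 2) (W : Finset ℕ) (𝒰 : Finset (Finset ℕ)),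
  Ok I K → OkW W 𝒰 → Filter.Tendsto
  (fun X : ℕ => (((Icc 1 X).filter fun D => Squarefree D ∧ Cl I K D.primeFactors ∧
      GdJ f 𝒰 D.primeFactors).card : ℝ) /
    (((Icc 1 X).filter fun D => Squarefree D ∧ Cl I K D.primeFactors).card : ℝ))
  Filter.atTop (nhds (c2 ^ 𝒰.card))

/-- the block system with small part restricted to the mask `m` has only the zero solution -/
def GdM {U J : Type} [Fintype U] [Fintype J] (m U1 : Finset U) (J1 : Finset J)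
    (A : U → U → ZMod 2) (B : U → J → ZMod 2) (C : J → U → ZMod 2) (R : J → J → ZMod 2)
    (f : U → ZMod 2) (g : J → ZMod 2) : Prop :=
  ∀ (x : U → ZMod 2) (y : J → ZMod 2), (∀ u, u ∉ U1 → x u = 0) → (∀ u, u ∉ m → x u = 0) →
    (∀ k, k ∉ J1 → y k = 0) →
    (∀ u ∈ U1, u ∈ m →
      ∑ v ∈ m, A u v * (x v + x u) + ∑ l, B u l * (y l + x u) + f u * x u = 0) →
    (∀ k ∈ J1, ∑ u ∈ m, C k u * (x u + y k) + ∑ l, R k l * (y l + y k) + g k * y k = 0) →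
    (∀ u, x u = 0) ∧ ∀ l, y l = 0

/-- JQ-LA: the probability that a random symmetric completion is good for all the masks. -/
def S_JLA : Prop := ∀ (M : ℕ) (ε : ℝ), 0 < ε → ∃ R : ℕ, ∀ (U J : Type) [Fintype U] [Fintype J]
  [LinearOrder J] (U1 : Finset U) (J1 : Finset J), (∃ l, l ∉ J1) → ∀ (m : Fin M → Finset U)
  (A : U → U → ZMod 2) (B : U → J → ZMod 2) (C : J → U → ZMod 2) (f : U → ZMod 2)
  (g : J → ZMod 2),
  (∀ u ∈ U1, ∀ v ∈ U1, A u v = A v u) → (∀ u ∈ U1, ∀ k ∈ J1, B u k = C k u) →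
  (∀ w : U → ZMod 2, (∀ u, u ∉ U1 → w u = 0) → (∃ u, w u ≠ 0) → ∃ k ∈ J1, ∑ u, w u * C k u ≠ 0) →
  2 * U1.card + R ≤ J1.card →
  (∀ i j, i ≠ j → 2 * U1.card + R ≤
    (J1.filter fun k => ∑ u ∈ m i, C k u + ∑ u ∈ m j, C k u ≠ 0).card) →
  |((univ.filter fun α : prs J1 → ZMod 2 => ∀ i, GdM (m i) U1 J1 A B C (ext α) f g).card : ℝ) /
      2 ^ (prs J1).card - c2 ^ M| ≤ ε

/-- the labels of the large primes `S₁` with respect to the small ones `S₀` and to `W` are not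
degenerate, and they separate the masks -/
def NdJ (R : ℕ) (W : Finset ℕ) (𝒰 : Finset (Finset ℕ)) (S₀ S₁ : Finset ℕ) : Prop :=
  Nd (S₀ ∪ W) S₁ ∧ 2 * (S₀ ∪ W).card + R ≤ (S₁.filter fun p => p % 8 = 1).card ∧
    ∀ U ∈ 𝒰, ∀ U' ∈ 𝒰, U ≠ U' → 2 * (S₀ ∪ W).card + R ≤
      (S₁.filter fun p => p % 8 = 1 ∧ ∑ u ∈ symmDiff U U', nr p u ≠ 0).card

/-- JQ-BOX: the count in a box. -/
def S_JBOX : Prop := S_EQ → S_JLA → ∀ (M : ℕ) (ε : ℝ), 0 < ε → ∃ R : ℕ, ∀ (f : ℕ → ZMod 2)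
  (ι : Type) [Fintype ι] [LinearOrder ι] (J1 : Finset ι) (C : ι → Finset ℕ) (X : ι → ℕ) (κ : ℝ)
  (S₀ W : Finset ℕ) (𝒰 : Finset (Finset ℕ)), 𝒰.card = M → (∀ U ∈ 𝒰, U ⊆ W) → 0 ≤ κ →
  (∀ i, (C i).card ≤ X i) → HB J1 C X κ → (∀ u ∈ S₀ ∪ W, u.Prime ∧ u ≠ 2) →
  (∀ i, ∀ p ∈ C i, p.Prime ∧ p ≠ 2 ∧ p ∉ S₀ ∪ W ∧ (i ∈ J1 ↔ p % 8 = 1)) →
  (∀ i l, i ≠ l → Disjoint (C i) (C l)) → (∃ i, i ∉ J1) →
  |(((Fintype.piFinset C).filter fun p => NdJ R W 𝒰 S₀ (univ.image p) ∧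
      GdJ f 𝒰 (S₀ ∪ univ.image p)).card : ℝ) -
      c2 ^ M * (((Fintype.piFinset C).filter fun p => NdJ R W 𝒰 S₀ (univ.image p)).card : ℝ)| ≤
    ε * (((Fintype.piFinset C).filter fun p => NdJ R W 𝒰 S₀ (univ.image p)).card : ℝ) +
    2 ^ ((2 * (S₀ ∪ W).card + 1) * Fintype.card ι + (prs J1).card) * (κ * ∏ j, (X j : ℝ))

/-- JQ-KEY: the sum over the boxes. -/
def S_JKEY : Prop := S_BIL → S_EQ → S_JLA → S_JBOX → ∀ (M : ℕ) (ε : ℝ), 0 < ε →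
  ∃ (R : ℕ) (C : ℝ), 1 ≤ C ∧
  ∀ (I K : Finset ℕ) (f : ℕ → ZMod 2) (X z H k V N : ℕ) (κ : ℝ) (W : Finset ℕ)
  (𝒰 : Finset (Finset ℕ)), 𝒰.card = M → OkW W 𝒰 → (∀ u ∈ W, u ≤ z) → W.card ≤ k →
  Ok I K → 1 ≤ X → 1 ≤ H → 1 ≤ z → 0 ≤ κ → C ≤ κ ^ 12 * z → (H : ℝ) * Real.log X < N →
  |(((RR I K X z H k V).filter fun S => NdJ R W 𝒰 (sm z S) (la z S) ∧ GdJ f 𝒰 S).card : ℝ) -
      c2 ^ M * (((RR I K X z H k V).filter fun S => NdJ R W 𝒰 (sm z S) (la z S)).card : ℝ)| ≤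
    ε * ((RR I K X z H k V).card : ℝ) +
    (9 * N + 9 : ℝ) ^ k * (3 ^ (6 * k ^ 2) * κ) * (X * (1 + Real.log X))

/-- JQ-BAD: few sets have degenerate labels. -/
def S_JBAD : Prop := S_SIE → S_HAL → S_MER → ∀ (I K W : Finset ℕ), Ok I K →
  (∀ u ∈ W, u.Prime ∧ u ≠ 2 ∧ u ≠ 7) → ∃ (δ C : ℝ) (X₀ : ℕ), 0 < δ ∧ ∀ X : ℕ, X₀ ≤ X →
  (((SS I K X).filter fun S => S.card ≤ kk X ∧
      ¬ Nd (sm (zz X) S ∪ W) (la (zz X) S)).card : ℝ) ≤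
    C * X * (Real.log X) ^ (-1 + dl I - δ : ℝ)

/-- JQ-MER: Mertens' theorem for the split primes on which a product of primes is not a square. -/
def S_JMER : Prop := ∀ e : Finset ℕ, e.Nonempty → (∀ u ∈ e, u.Prime ∧ u ≠ 2 ∧ u ≠ 7) →
  ∃ C : ℝ, ∀ y : ℕ, 3 ≤ y →
  |∑ p ∈ (range (y + 1)).filter (fun p => Sp p ∧ p ∉ e ∧ ∑ u ∈ e, nr p u ≠ 0), (1 : ℝ) / p -
    1 / 16 * Real.log (Real.log y)| ≤ C

/-- JQ-FEW: few sets have few large split primes on which a product of primes is not a square. -/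
def S_JFEW : Prop := S_SIE → S_MER → S_JMER → ∀ (I K e : Finset ℕ) (R : ℕ), Ok I K →
  e.Nonempty → (∀ u ∈ e, u.Prime ∧ u ≠ 2 ∧ u ≠ 7) →
  ∃ (δ C : ℝ) (X₀ : ℕ), 0 < δ ∧ ∀ X : ℕ, X₀ ≤ X →
  (((SS I K X).filter fun S => ((la (zz X) S).filter fun p => p % 8 = 1 ∧
      ∑ u ∈ e, nr p u ≠ 0).card < 2 * (sm (zz X) S).card + R).card : ℝ) ≤
    C * X * (Real.log X) ^ (-1 + dl I - δ : ℝ)

/-- JQ-NS: the translation. -/
def S_JNS : Prop := S_JDQ → S_JDEN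

end Pool.Agent.Y687.JQ
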