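import Pool.Agent.Y687.JQ.Asy
import Pool.Agent.Y703.CQ.Fin
import Pool.Agent.Y697.JQ.LA
import Pool.Agent.Y697.JQ.BOX
import Pool.Agent.Y687.JQ.KeyC
import Pool.Agent.Y697.JQ.BAD
import Pool.Agent.Y362.JQ.FEW
import Pool.Agent.Y405.JQ.MER
import Pool.Agent.Y514.JQ.NS

/-!
# Project JQ: the joint exact proportion

Joint work: helper697 (linear algebra, boxes, sum over the boxes, degenerate labels), helper362,
helper405, helper514, helper687 (plan, statements, asymptotics), and all the authors of project CQ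
(see `Pool.Agent.Y703.CQ.Fin`).
-/

set_option autoImplicit false

namespace Pool.Agent.Y687.JQ

theorem t_JDQ_all : S_JDQ :=
  t_JDQ Pool.Agent.Y710.CQ.t_BIL Pool.Agent.Y356.CQ.t_EQ Pool.Agent.Y697.JQ.t_JLA
    Pool.Agent.Y697.JQ.t_JBOX KC.t_JKEY Pool.Agent.Y391.CQ.t_CNT
    Pool.Agent.Y488.CX.t_SIE Pool.Agent.Y475.CQ.t_HAL Pool.Agent.Y697.JQ.t_JBAD
    Pool.Agent.Y362.CQ.t_FEW Pool.Agent.Y405.JQ.t_JMER Pool.Agent.Y362.JQ.t_JFEW
    Pool.Agent.Y405.CQ.t_MER Pool.Agent.Y302.CQ.t_CHE Pool.Agent.Y302.CQ.t_LOW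
    Pool.Agent.Y948.CQ.t_C2

theorem t_JDEN : S_JDEN := Pool.Agent.Y514.JQ.t_JNS t_JDQ_all

end Pool.Agent.Y687.JQ
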