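import Pool.Agent.Y687.JQ.Fld

/-!
# Project JQ: the matrix and the system of equations
-/

set_option autoImplicit false
set_option linter.style.haveILetI false

open Finset

namespace Pool.Agent.Y687.JQ

open Pool.Agent.Y687.MQ (AdmD matD IP disc ClG Ind)
open Pool.Agent.Y703.CQ (Cl In nr cu Sol Gd Ok)

theorem nr_self (p : ℕ) : nr p p = 0 := by
  unfold nr
  rw [if_pos]
  rw [ZMod.natCast_self]
  exact ⟨0, by ring⟩

theorem sum_nr (p : ℕ) (S : Finset ℕ) : ∑ q ∈ S, nr p q =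
    ((by classical exact (S.filter fun r : ℕ => r ≠ p ∧ ¬ IsSquare (r : ZMod p)).card : ℕ) :
      ZMod 2) := by
  classical
  rw [Finset.card_filter]
  push_cast
  refine Finset.sum_congr rfl fun q _ => ?_
  by_cases h : q = p
  · rw [h, nr_self, if_neg (by tauto)]
  · unfold nr
    by_cases h2 : IsSquare (q : ZMod p)
    · rw [if_pos h2, if_neg (by tauto)]
    · rw [if_neg h2, if_pos ⟨h, h2⟩]

/-- a row of the system -/
theorem row_eq (D : ℤ) (x : ℕ → ZMod 2) (i : MQ.SP D) :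
    (matD D).mulVec (fun j => x j) i =
      ∑ q ∈ D.natAbs.primeFactors, nr i q * (cu x q + x i) + fD i * x i := by
  classical
  have e1 : ∑ q ∈ D.natAbs.primeFactors, nr i q * (cu x q + x i) =
      ∑ q ∈ MQ.SP D, nr i q * x q + (∑ q ∈ D.natAbs.primeFactors, nr i q) * x i := by
    rw [Finset.sum_mul]
    unfold MQ.SP
    rw [Finset.sum_filter, ← Finset.sum_add_distrib]
    refine Finset.sum_congr rfl fun q _ => ?_
    unfold cu
    split_ifs <;> ring
  rw [e1, sum_nr]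
  have e2 : ∑ q ∈ MQ.SP D, nr i q * x q = ∑ j : MQ.SP D, nr i j * x j :=
    (Finset.sum_coe_sort (MQ.SP D) (fun q => nr i q * x q)).symm
  rw [e2]
  unfold Matrix.mulVec dotProduct
  rw [← Finset.add_sum_erase univ _ (Finset.mem_univ i),
    ← Finset.add_sum_erase univ (fun j : MQ.SP D => nr i j * x j) (Finset.mem_univ i), nr_self,
    zero_mul, zero_add]
  have e3 : ∑ j ∈ univ.erase i, matD D i j * x j = ∑ j ∈ univ.erase i, nr i j * x j := by
    refine Finset.sum_congr rfl fun j hj => ?_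
    have hne : i ≠ j := fun h => (Finset.mem_erase.1 hj).1 h.symm
    congr 1
    unfold matD nr
    rw [Matrix.of_apply, if_neg hne]
  rw [e3]
  have e4 : matD D i i = ((D.natAbs.primeFactors.filter fun r : ℕ => r ≠ (i : ℕ) ∧
      ¬ IsSquare (r : ZMod (i : ℕ))).card : ZMod 2) + fD i := by
    unfold matD fD
    rw [Matrix.of_apply, if_pos rfl]
  show matD D i i * x i + _ = _
  rw [e4]
  ring

/-- the determinant and the system -/
theorem det_iff (D : ℤ) : (matD D).det ≠ 0 ↔ Gd fD D.natAbs.primeFactors := by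
  classical
  have key : ∀ x : ℕ → ZMod 2, Sol fD D.natAbs.primeFactors x ↔
      (matD D).mulVec (fun j => x j) = 0 := by
    intro x
    unfold Sol
    constructor
    · intro h
      funext i
      rw [row_eq, Pi.zero_apply]
      have hi := Finset.mem_filter.1 i.2
      exact h i hi.1 hi.2
    · intro h p hp hp8
      have h1 := congrFun h ⟨p, Finset.mem_filter.2 ⟨hp, hp8⟩⟩
      rw [row_eq, Pi.zero_apply] at h1
      exact h1
  constructor
  · intro hdet x hx p hp hp8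
    rw [key] at hx
    by_contra hne
    apply hdet
    rw [← Matrix.exists_mulVec_eq_zero_iff]
    refine ⟨_, ?_, hx⟩
    intro h
    exact hne (congrFun h ⟨p, Finset.mem_filter.2 ⟨hp, hp8⟩⟩)
  · intro hG h0
    obtain ⟨v, hv, hv0⟩ := Matrix.exists_mulVec_eq_zero_iff.2 h0
    apply hv
    set x : ℕ → ZMod 2 := fun p => if h : p ∈ MQ.SP D then v ⟨p, h⟩ else 0 with hx
    have e : (fun j : MQ.SP D => x j) = v := by
      funext j
      rw [hx]
      simp only [j.2, dite_true]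
    have h1 := hG x ((key x).2 (by rw [e]; exact hv0))
    funext j
    have hj := Finset.mem_filter.1 j.2
    have h2 := h1 j hj.1 hj.2
    rw [← e]
    exact h2

/-- good over the field -/
def GO {n : ℕ} (d : Fin n → ℤ) (M : ℤ) : Prop :=
  ∀ T : Finset (Fin n), ∃ D k : ℤ, (AdmD D ∧ (matD D).det ≠ 0) ∧ k ≠ 0 ∧
    M * ∏ i ∈ T, d i = D * k ^ 2

/-- the condition over the field in terms of sets of primes -/
theorem GO_iff {n : ℕ} {d : Fin n → ℤ} {N : ℤ} {U : Finset (Fin n) → Finset ℕ}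
    (hU : ∀ T, CL (U T) ∧ ∃ k : ℤ, k ≠ 0 ∧ N * ∏ i ∈ T, d i = DD (U T) * k ^ 2) {M : ℤ}
    (hM : AdmD M) : GO d (N * M) ↔ GdJ fD (univ.image U) M.natAbs.primeFactors := by
  classical
  obtain ⟨hC, hDD⟩ := of_adm hM
  have key : ∀ T, (∃ D k : ℤ, (AdmD D ∧ (matD D).det ≠ 0) ∧ k ≠ 0 ∧
      N * M * ∏ i ∈ T, d i = D * k ^ 2) ↔ Gd fD (symmDiff M.natAbs.primeFactors (U T)) := by
    intro T
    obtain ⟨hT, k, hk, he⟩ := hU T
    have hS := hC.symmDiff hT
    have hm := DD_mul M.natAbs.primeFactors (U T)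
    rw [hDD] at hm
    set g : ℤ := DD (M.natAbs.primeFactors ∩ U T) with hg
    have hg0 : g ≠ 0 := DD_ne fun p hp => (hC.prime p (Finset.mem_inter.1 hp).1).ne_zero
    have hMd : N * M * ∏ i ∈ T, d i =
        DD (symmDiff M.natAbs.primeFactors (U T)) * (g * k) ^ 2 := by
      linear_combination (k ^ 2) * hm + M * he
    have hdet : (matD (DD (symmDiff M.natAbs.primeFactors (U T)))).det ≠ 0 ↔
        Gd fD (symmDiff M.natAbs.primeFactors (U T)) := by
      rw [det_iff, hS.natAbs]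
    rw [← hdet]
    constructor
    · rintro ⟨D, m, ⟨hD, hdt⟩, hm0, hDm⟩
      have h1 : D = DD (symmDiff M.natAbs.primeFactors (U T)) :=
        sqf_unique hD.1 hS.sqf hm0 (mul_ne_zero hg0 hk) (by rw [← hDm, hMd])
      rw [← h1]
      exact hdt
    · intro h
      exact ⟨_, _, ⟨hS.adm, h⟩, mul_ne_zero hg0 hk, hMd⟩
  unfold GO GdJ
  constructor
  · intro h V hV
    obtain ⟨T, -, rfl⟩ := Finset.mem_image.1 hV
    exact (key T).1 (h T)
  · intro h T
    exact (key T).2 (h _ (Finset.mem_image_of_mem U (Finset.mem_univ T)))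

/-- the discriminants of given sign -/
theorem adm_iff {e : ℤ} {κ : ℕ} (he : (e = 1 ∧ κ = 0) ∨ (e = -1 ∧ κ = 1)) {D : ℕ} (hD : 1 ≤ D) :
    AdmD (e * D) ↔ (Squarefree D ∧ Cl {3, 5} {κ} D.primeFactors) := by
  classical
  have habs : (e * (D : ℤ)).natAbs = D := by
    rw [Int.natAbs_mul, Int.natAbs_natCast]
    rcases he with ⟨rfl, -⟩ | ⟨rfl, -⟩ <;> simp
  -- the sign of `DD S`
  have hsgn : ∀ S : Finset ℕ, CL S → DD S =
      (-1) ^ (S.filter fun p => p % 8 = 3).card * ((∏ p ∈ S, p : ℕ) : ℤ) := by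
    intro S hS
    have hq : ∀ p ∈ S, qs p = (if p % 8 = 3 then -1 else 1) * (p : ℤ) := by
      intro p hp
      have h1 : p % 8 = 1 ∨ p % 8 = 3 ∨ p % 8 = 5 := by
        rcases (CL_iff.1 hS).1 p hp with h | h
        · exact Or.inl h.2.1
        · exact Or.inr h.2.2.1
      unfold qs
      rcases h1 with h | h | h
      · rw [if_pos (by omega), if_neg (by omega), one_mul]
      · rw [if_neg (by omega), if_pos h, neg_one_mul]
      · rw [if_pos (by omega), if_neg (by omega), one_mul]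
    unfold DD
    rw [Finset.prod_congr rfl hq, Finset.prod_mul_distrib, Finset.prod_ite, Finset.prod_const_one,
      mul_one, Finset.prod_const]
    push_cast
    rfl
  have hCl : ∀ S : Finset ℕ, Cl {3, 5} {κ} S ↔
      (CL S ∧ (S.filter fun p => p % 8 = 3).card % 2 = κ) := by
    intro S
    unfold CL Cl
    have h3 : (S.filter fun p => p % 8 = 3).card % 2 ∈ ({0, 1} : Finset ℕ) := by
      rw [Finset.mem_insert, Finset.mem_singleton]
      omega
    rw [Finset.mem_singleton]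
    tauto
  have hDz : (0 : ℤ) < D := by exact_mod_cast hD
  constructor
  · intro h
    obtain ⟨hC, hDD⟩ := of_adm h
    rw [habs] at hC hDD
    have hsq : Squarefree D := by
      have := Int.squarefree_natAbs.2 h.1
      rwa [habs] at this
    refine ⟨hsq, (hCl _).2 ⟨hC, ?_⟩⟩
    rw [hsgn _ hC, Nat.prod_primeFactors_of_squarefree hsq] at hDD
    have h1 := mul_right_cancel₀ hDz.ne' hDD
    rcases Nat.mod_two_eq_zero_or_one (D.primeFactors.filter fun p => p % 8 = 3).card with h5 | h5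
    · rw [(Nat.even_iff.2 h5).neg_one_pow] at h1
      rcases he with ⟨h6, h7⟩ | ⟨h6, h7⟩
      · rw [h5, h7]
      · rw [h6] at h1
        norm_num at h1
    · rw [(Nat.odd_iff.2 h5).neg_one_pow] at h1
      rcases he with ⟨h6, h7⟩ | ⟨h6, h7⟩
      · rw [h6] at h1
        norm_num at h1
      · rw [h5, h7]
  · rintro ⟨hsq, h⟩
    obtain ⟨hC, h3⟩ := (hCl _).1 h
    have h1 : DD D.primeFactors = e * D := by
      rw [hsgn _ hC, Nat.prod_primeFactors_of_squarefree hsq]
      congr 1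
      rcases he with ⟨h6, h7⟩ | ⟨h6, h7⟩
      · rw [h6, (Nat.even_iff.2 (h3.trans h7)).neg_one_pow]
      · rw [h6, (Nat.odd_iff.2 (h3.trans h7)).neg_one_pow]
    rw [← h1]
    exact hC.adm

/-- up to squares in the class -/
def AdS (N : ℤ) : Prop := ∃ D k : ℤ, AdmD D ∧ k ≠ 0 ∧ N = D * k ^ 2

/-- the square classes, with a twist -/
theorem exists_U' {n : ℕ} {d : Fin n → ℤ} (hd : Ind d) (ha : ∀ i, AdS (d i)) {N : ℤ}
    (hN : AdS N) : ∃ U : Finset (Fin n) → Finset ℕ, Function.Injective U ∧ ∀ T, CL (U T) ∧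
      ∃ k : ℤ, k ≠ 0 ∧ N * ∏ i ∈ T, d i = DD (U T) * k ^ 2 := by
  obtain ⟨U, hinj, hU⟩ := exists_U hd ha
  obtain ⟨D, m, hD, hm, rfl⟩ := hN
  obtain ⟨hC, hDD⟩ := of_adm hD
  refine ⟨fun T => symmDiff D.natAbs.primeFactors (U T), fun T T' h => hinj ?_, fun T => ?_⟩
  · exact symmDiff_right_injective _ h
  · obtain ⟨hT, k, hk, he⟩ := hU T
    refine ⟨hC.symmDiff hT, DD (D.natAbs.primeFactors ∩ U T) * m * k, ?_, ?_⟩
    · refine mul_ne_zero (mul_ne_zero (DD_ne fun p hp => ?_) hm) hk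
      exact (hC.prime p (Finset.mem_inter.1 hp).1).ne_zero
    · rw [he]
      have h2 := DD_mul D.natAbs.primeFactors (U T)
      rw [hDD] at h2
      linear_combination (m ^ 2 * k ^ 2) * h2

open Classical in
/-- **the proportion over a field** -/
theorem prop_field (hJ : S_JDEN) {n : ℕ} {d : Fin n → ℤ} (hd : Ind d) (ha : ∀ i, AdS (d i))
    {N : ℤ} (hN : AdS N) {e : ℤ} (he : e = 1 ∨ e = -1) :
    Filter.Tendsto (fun X : ℕ =>
      (((Icc 1 X).filter fun D : ℕ => AdmD (e * D) ∧ GO d (N * (e * D))).card : ℝ) /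
      (((Icc 1 X).filter fun D : ℕ => AdmD (e * D)).card : ℝ))
      Filter.atTop (nhds (Pool.Agent.Y703.CQ.c2 ^ 2 ^ n)) := by
  obtain ⟨U, hinj, hU⟩ := exists_U' hd ha hN
  obtain ⟨κ, hκ⟩ : ∃ κ : ℕ, (e = 1 ∧ κ = 0) ∨ (e = -1 ∧ κ = 1) := by
    rcases he with h | h
    · exact ⟨0, Or.inl ⟨h, rfl⟩⟩
    · exact ⟨1, Or.inr ⟨h, rfl⟩⟩
  have hok : Ok {3, 5} {κ} := by
    refine ⟨Or.inr rfl, ?_⟩
    rcases hκ with ⟨-, h⟩ | ⟨-, h⟩
    · left
      rw [h]
      simp
    · right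
      rw [h]
      simp
  have hcard : (univ.image U).card = 2 ^ n := by
    rw [Finset.card_image_of_injective _ hinj, Finset.card_univ, Fintype.card_finset,
      Fintype.card_fin]
  have hW : OkW ((univ.image U).biUnion id) (univ.image U) := by
    refine ⟨fun u hu => ?_, fun V hV => Finset.subset_biUnion_of_mem id hV⟩
    obtain ⟨V, hV, huV⟩ := Finset.mem_biUnion.1 hu
    obtain ⟨T, -, rfl⟩ := Finset.mem_image.1 hV
    have h1 := (CL_iff.1 (hU T).1).1 u huV
    rcases h1 with h | h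
    · refine ⟨h.1, ?_, ?_⟩
      · rintro rfl
        exact absurd h.2.1 (by norm_num)
      · rintro rfl
        exact absurd h.2.1 (by norm_num)
    · refine ⟨h.2.1, ?_, ?_⟩
      · rintro rfl
        exact absurd h.2.2.1 (by norm_num)
      · rintro rfl
        exact absurd h.2.2.1 (by norm_num)
  have h := hJ {3, 5} {κ} fD _ _ hok hW
  rw [hcard] at h
  refine h.congr fun X => ?_
  have e1 : ((Icc 1 X).filter fun D : ℕ => AdmD (e * D) ∧ GO d (N * (e * D))) =
      (Icc 1 X).filter fun D => Squarefree D ∧ Cl {3, 5} {κ} D.primeFactors ∧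
        GdJ fD (univ.image U) D.primeFactors := by
    refine Finset.filter_congr fun D hD => ?_
    have hD1 := (Finset.mem_Icc.1 hD).1
    have habs : (e * (D : ℤ)).natAbs = D := by
      rw [Int.natAbs_mul, Int.natAbs_natCast]
      rcases he with rfl | rfl <;> simp
    rw [← and_assoc, ← adm_iff hκ hD1]
    refine and_congr_right fun hA => ?_
    rw [GO_iff hU hA, habs]
  have e2 : ((Icc 1 X).filter fun D : ℕ => AdmD (e * D)) =
      (Icc 1 X).filter fun D => Squarefree D ∧ Cl {3, 5} {κ} D.primeFactors :=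
    Finset.filter_congr fun D hD => adm_iff hκ (Finset.mem_Icc.1 hD).1
  rw [e1, e2]

/-- the class is infinite -/
theorem adm_infinite {e : ℤ} (he : e = 1 ∨ e = -1) : {D : ℕ | 1 ≤ D ∧ AdmD (e * D)}.Infinite := by
  classical
  obtain ⟨κ, hκ⟩ : ∃ κ : ℕ, (e = 1 ∧ κ = 0) ∨ (e = -1 ∧ κ = 1) := by
    rcases he with h | h
    · exact ⟨0, Or.inl ⟨h, rfl⟩⟩
    · exact ⟨1, Or.inr ⟨h, rfl⟩⟩
  obtain ⟨a, hau, ha⟩ : ∃ a : ℕ, IsUnit (a : ZMod 56) ∧ ∀ q : ℕ, q.Prime → q ≠ 3 →
      q % 56 = a % 56 → Cl {3, 5} {κ} ({q} : Finset ℕ) := by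
    rcases hκ with ⟨-, h⟩ | ⟨-, h⟩
    · refine ⟨1, (ZMod.isUnit_iff_coprime 1 56).2 (by norm_num), fun q hq h3 hqa =>
        ⟨fun p hp => Or.inl ?_, ?_, ?_⟩⟩
      · rw [Finset.mem_singleton.1 hp]
        exact ⟨hq, by omega, by omega⟩
      · rw [Finset.filter_singleton, if_neg (by omega)]
        rfl
      · rw [Finset.filter_singleton, if_neg (by omega), h]
        simp
    · refine ⟨3, (ZMod.isUnit_iff_coprime 3 56).2 (by norm_num), fun q hq h3 hqa =>
        ⟨fun p hp => Or.inr ?_, ?_, ?_⟩⟩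
      · rw [Finset.mem_singleton.1 hp]
        exact ⟨hq, h3, mem35.2 (Or.inl (by omega)), by omega⟩
      · rw [Finset.filter_singleton, if_neg (by omega)]
        rfl
      · rw [Finset.filter_singleton, if_pos (by omega), h]
        simp
  have hinf := Nat.infinite_setOfPred_prime_and_eq_mod hau
  refine ((hinf.sdiff (Set.finite_singleton 3))).mono ?_
  rintro q ⟨⟨hq, hqa⟩, hq3⟩
  have h56 : q % 56 = a % 56 := (ZMod.natCast_eq_natCast_iff' _ _ _).1 hqa
  refine ⟨hq.one_lt.le, (adm_iff hκ hq.one_lt.le).2 ⟨hq.squarefree, ?_⟩⟩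
  rw [hq.primeFactors]
  exact ha q hq hq3 h56

/-- the sums over the subsets of the indices with one index more -/
theorem prod_snoc_iff {n : ℕ} (d : Fin n → ℤ) (D : ℤ) (P : ℤ → Prop) :
    (∀ T : Finset (Fin (n + 1)), P (∏ i ∈ T, (Fin.snoc d D : Fin (n + 1) → ℤ) i)) ↔
      (∀ T : Finset (Fin n), P (∏ i ∈ T, d i)) ∧ ∀ T : Finset (Fin n), P (D * ∏ i ∈ T, d i) := by
  classical
  have hinj : Function.Injective (Fin.castSucc : Fin n → Fin (n + 1)) := Fin.castSucc_injective n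
  have h0 : ∀ T : Finset (Fin n), ∏ i ∈ T.image Fin.castSucc,
      (Fin.snoc d D : Fin (n + 1) → ℤ) i = ∏ i ∈ T, d i := by
    intro T
    rw [Finset.prod_image fun a _ b _ h => hinj h]
    exact Finset.prod_congr rfl fun i _ => Fin.snoc_castSucc _ _ _
  have hl : ∀ T : Finset (Fin n), Fin.last n ∉ T.image Fin.castSucc := by
    intro T h
    obtain ⟨i, -, hi⟩ := Finset.mem_image.1 h
    exact (Fin.castSucc_lt_last i).ne hi
  have h1 : ∀ T : Finset (Fin n), ∏ i ∈ insert (Fin.last n) (T.image Fin.castSucc),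
      (Fin.snoc d D : Fin (n + 1) → ℤ) i = D * ∏ i ∈ T, d i := by
    intro T
    rw [Finset.prod_insert (hl T), h0]
    congr 1
    exact Fin.snoc_last _ _
  constructor
  · intro h
    exact ⟨fun T => by rw [← h0]; exact h _, fun T => by rw [← h1]; exact h _⟩
  · rintro ⟨h2, h3⟩ T
    set T' : Finset (Fin n) := univ.filter fun i => i.castSucc ∈ T with hT'
    have e : T.erase (Fin.last n) = T'.image Fin.castSucc := by
      ext i
      rw [Finset.mem_erase, Finset.mem_image]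
      constructor
      · rintro ⟨g1, g2⟩
        obtain ⟨j, rfl⟩ := Fin.exists_castSucc_eq.2 g1
        exact ⟨j, Finset.mem_filter.2 ⟨Finset.mem_univ _, g2⟩, rfl⟩
      · rintro ⟨j, hj, rfl⟩
        exact ⟨(Fin.castSucc_lt_last j).ne, (Finset.mem_filter.1 hj).2⟩
    by_cases hlT : Fin.last n ∈ T
    · rw [← Finset.insert_erase hlT, e, h1]
      exact h3 T'
    · rw [← Finset.erase_eq_of_notMem hlT, e, h0]
      exact h2 T'

theorem GO_snoc {n : ℕ} (d : Fin n → ℤ) (M D : ℤ) :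
    GO (Fin.snoc d D : Fin (n + 1) → ℤ) M ↔ (GO d M ∧ GO d (M * D)) := by
  unfold GO
  rw [prod_snoc_iff d D (fun z => ∃ D' k : ℤ, (AdmD D' ∧ (matD D').det ≠ 0) ∧ k ≠ 0 ∧
    M * z = D' * k ^ 2)]
  simp only [mul_assoc]

/-- independence of the longer family -/
theorem ind_snoc {n : ℕ} {d : Fin n → ℤ} (hd : Ind d) {D : ℤ}
    (h : ∀ T : Finset (Fin n), ¬ IsSquare (D * ∏ i ∈ T, d i)) :
    Ind (Fin.snoc d D : Fin (n + 1) → ℤ) := by
  classical
  intro T hT
  have hinj : Function.Injective (Fin.castSucc : Fin n → Fin (n + 1)) := Fin.castSucc_injective n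
  set T' : Finset (Fin n) := univ.filter fun i => i.castSucc ∈ T with hT'
  have e : T.erase (Fin.last n) = T'.image Fin.castSucc := by
    ext i
    rw [Finset.mem_erase, Finset.mem_image]
    constructor
    · rintro ⟨g1, g2⟩
      obtain ⟨j, rfl⟩ := Fin.exists_castSucc_eq.2 g1
      exact ⟨j, Finset.mem_filter.2 ⟨Finset.mem_univ _, g2⟩, rfl⟩
    · rintro ⟨j, hj, rfl⟩
      exact ⟨(Fin.castSucc_lt_last j).ne, (Finset.mem_filter.1 hj).2⟩
  have h0 : ∏ i ∈ T'.image Fin.castSucc, (Fin.snoc d D : Fin (n + 1) → ℤ) i = ∏ i ∈ T', d i := by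
    rw [Finset.prod_image fun a _ b _ h => hinj h]
    exact Finset.prod_congr rfl fun i _ => Fin.snoc_castSucc _ _ _
  by_cases hlT : Fin.last n ∈ T
  · rw [← Finset.mul_prod_erase T _ hlT, e, h0]
    have e2 : (Fin.snoc d D : Fin (n + 1) → ℤ) (Fin.last n) = D := Fin.snoc_last _ _
    rw [e2]
    exact h T'
  · rw [← Finset.erase_eq_of_notMem hlT, e, h0]
    refine hd T' ?_
    obtain ⟨i, hi⟩ := hT
    have hne : i ≠ Fin.last n := fun h => hlT (h ▸ hi)
    obtain ⟨j, rfl⟩ := Fin.exists_castSucc_eq.2 hne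
    exact ⟨j, Finset.mem_filter.2 ⟨Finset.mem_univ _, hi⟩⟩

/-- a finite set of exceptions does not change the proportion -/
theorem tendsto_exc (A B C : ℕ → Prop) [DecidablePred A] [DecidablePred B] [DecidablePred C]
    (E : Finset ℕ) {c : ℝ} (hinf : {D : ℕ | 1 ≤ D ∧ A D}.Infinite)
    (hBA : ∀ D, B D → A D) (hCB : ∀ D, C D → B D) (hE : ∀ D, B D → D ∉ E → C D)
    (h : Filter.Tendsto (fun X : ℕ => (((Icc 1 X).filter B).card : ℝ) /
      (((Icc 1 X).filter A).card : ℝ)) Filter.atTop (nhds c)) :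
    Filter.Tendsto (fun X : ℕ => (((Icc 1 X).filter C).card : ℝ) /
      (((Icc 1 X).filter A).card : ℝ)) Filter.atTop (nhds c) := by
  have hA : Filter.Tendsto (fun X : ℕ => (((Icc 1 X).filter A).card : ℝ)) Filter.atTop
      Filter.atTop := by
    refine tendsto_natCast_atTop_atTop.comp ?_
    refine Filter.tendsto_atTop_atTop.2 fun b => ?_
    obtain ⟨s, hs, hsc⟩ := hinf.exists_subset_card_eq b
    refine ⟨s.sup id, fun X hX => ?_⟩
    rw [← hsc]
    refine Finset.card_le_card fun D hD => ?_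
    have h1 := hs hD
    exact Finset.mem_filter.2 ⟨Finset.mem_Icc.2 ⟨h1.1, (Finset.le_sup (f := id) hD).trans hX⟩, h1.2⟩
  have h2 : Filter.Tendsto (fun X : ℕ => (E.card : ℝ) / (((Icc 1 X).filter A).card : ℝ))
      Filter.atTop (nhds 0) := hA.const_div_atTop _
  refine tendsto_of_tendsto_of_tendsto_of_le_of_le
    (by simpa using h.sub h2) h (fun X => ?_) (fun X => ?_)
  · have h3 : ((Icc 1 X).filter B).card ≤ ((Icc 1 X).filter C).card + E.card := by
      refine (Finset.card_le_card (t := (Icc 1 X).filter C ∪ E) fun D hD => ?_).trans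
        (Finset.card_union_le _ _)
      rw [Finset.mem_union, Finset.mem_filter]
      obtain ⟨g1, g2⟩ := Finset.mem_filter.1 hD
      by_cases hDE : D ∈ E
      · exact Or.inr hDE
      · exact Or.inl ⟨g1, hE D g2 hDE⟩
    have h4 : (((Icc 1 X).filter B).card : ℝ) ≤ ((Icc 1 X).filter C).card + E.card := by
      exact_mod_cast h3
    show _ / _ - _ / _ ≤ _ / _
    rw [← sub_div]
    apply div_le_div_of_nonneg_right _ (Nat.cast_nonneg _)
    linarith
  · show _ / _ ≤ _ / _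
    apply div_le_div_of_nonneg_right _ (Nat.cast_nonneg _)
    refine Nat.cast_le.2 (Finset.card_le_card fun D hD => ?_)
    obtain ⟨g1, g2⟩ := Finset.mem_filter.1 hD
    exact Finset.mem_filter.2 ⟨g1, hCB D g2⟩

open Classical in
/-- **the proportion of the quadratic extensions of a good field** -/
theorem prop_ext (hJ : S_JDEN) {n : ℕ} {d : Fin n → ℤ} (hd : Ind d) (ha : ∀ i, AdS (d i))
    {M : ℤ} (hM : GO d M) {e : ℤ} (he : e = 1 ∨ e = -1) :
    Filter.Tendsto (fun X : ℕ =>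
      (((Icc 1 X).filter fun D : ℕ => AdmD (e * D) ∧
        (Ind (Fin.snoc d (e * D) : Fin (n + 1) → ℤ) ∧
          GO (Fin.snoc d (e * D) : Fin (n + 1) → ℤ) M)).card : ℝ) /
      (((Icc 1 X).filter fun D : ℕ => AdmD (e * D)).card : ℝ))
      Filter.atTop (nhds (Pool.Agent.Y703.CQ.c2 ^ 2 ^ n)) := by
  have hN : AdS M := by
    obtain ⟨D, k, h1, h2, h3⟩ := hM ∅
    rw [Finset.prod_empty, mul_one] at h3
    exact ⟨D, k, h1.1, h2, h3⟩
  obtain ⟨U, hinj, hU⟩ := exists_U hd ha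
  refine tendsto_exc (fun D : ℕ => AdmD (e * D)) (fun D : ℕ => AdmD (e * D) ∧ GO d (M * (e * D)))
    (fun D : ℕ => AdmD (e * D) ∧ (Ind (Fin.snoc d (e * D) : Fin (n + 1) → ℤ) ∧
          GO (Fin.snoc d (e * D) : Fin (n + 1) → ℤ) M))
    (univ.image fun T => (DD (U T)).natAbs) (adm_infinite he)
    (fun D h => h.1) (fun D h => ⟨h.1, ((GO_snoc d M _).1 h.2.2).2⟩) (fun D h hDE => ?_)
    (prop_field hJ hd ha hN he)
  refine ⟨h.1, ind_snoc hd fun T hsq => hDE ?_, (GO_snoc d M _).2 ⟨hM, h.2⟩⟩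
  obtain ⟨hT, k, hk, hk2⟩ := hU T
  obtain ⟨w, hw⟩ := hsq
  rw [hk2] at hw
  have hD0 : (e * (D : ℤ)) ≠ 0 := h.1.1.ne_zero
  have hw0 : w ≠ 0 := by
    rintro rfl
    rw [mul_zero] at hw
    exact mul_ne_zero hD0 (mul_ne_zero hT.ne (pow_ne_zero 2 hk)) hw
  have h1 : e * (D : ℤ) = DD (U T) := by
    refine sqf_unique h.1.1 hT.sqf (mul_ne_zero (mul_ne_zero hT.ne hk) hk) (mul_ne_zero hw0 hk) ?_
    have e1 : DD (U T) * (w * k) ^ 2 = DD (U T) * k ^ 2 * (w * w) := by ring
    rw [e1, ← hw]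
    ring
  refine Finset.mem_image.2 ⟨T, Finset.mem_univ _, ?_⟩
  show (DD (U T)).natAbs = D
  rw [← h1, Int.natAbs_mul, Int.natAbs_natCast]
  rcases he with rfl | rfl <;> simp

end Pool.Agent.Y687.JQ
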