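import Pool.Agent.Y687.JQ.Sha
import Pool.Agent.Y723.QT.Rf

/-!
# Project JQ: the two-primary part of the Tate-Shafarevich group over the multiquadratic field
-/

set_option autoImplicit false
set_option linter.style.haveILetI false

open Finset

namespace Pool.Agent.Y687.JQ

open Pool.Agent.Y687.MQ (AdmD matD IP disc ClG Ind)
open Pool.Agent.Y723.QT (Kl F2)
open Pool.Agent.TH841.NF (EF)

theorem vr_sq (a b : ℤ) {k : ℤ} (hk : k ≠ 0) :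
    Pool.Agent.Y700.VR (Pool.Agent.Z702.sh (k ^ 4 * a) (k ^ 6 * b)) (Pool.Agent.Z702.sh a b)
      (k : ℚ) 0 0 0 := by
  refine ⟨by exact_mod_cast hk, ?_, ?_, ?_, ?_, ?_⟩
  · show (k : ℚ) * 0 = 0 + 2 * 0
    ring
  · show (k : ℚ) ^ 2 * 0 = 0 - 0 * 0 + 3 * 0 - 0 ^ 2
    ring
  · show (k : ℚ) ^ 3 * 0 = 0 + 0 * 0 + 2 * 0
    ring
  · show (k : ℚ) ^ 4 * (a : ℚ) = ((k ^ 4 * a : ℤ) : ℚ) - 0 * 0 + 2 * 0 * 0 - (0 + 0 * 0) * 0 +
      3 * 0 ^ 2 - 2 * 0 * 0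
    push_cast
    ring
  · show (k : ℚ) ^ 6 * (b : ℚ) = ((k ^ 6 * b : ℤ) : ℚ) + 0 * ((k ^ 4 * a : ℤ) : ℚ) + 0 ^ 2 * 0 +
      0 ^ 3 - 0 * 0 - 0 ^ 2 - 0 * 0 * 0
    push_cast
    ring

/-- no elements of order two, up to squares -/
theorem sha_two {D k N : ℤ} (hD : RZS D) (hD0 : D ≠ 0) (hk : k ≠ 0) (hN : N = D * k ^ 2) :
    ∀ x : Pool.Agent.TH841.SH.D.Sha (Pool.Agent.Z702.sh (5805 * N ^ 2) (-285714 * N ^ 3)),
      x + x = 0 → x = 0 := by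
  have e1 : 5805 * N ^ 2 = k ^ 4 * (5805 * D ^ 2) := by rw [hN]; ring
  have e2 : -285714 * N ^ 3 = k ^ 6 * (-285714 * D ^ 3) := by rw [hN]; ring
  rw [e1, e2]
  have hΔ : (Pool.Agent.Z702.sh (5805 * D ^ 2) (-285714 * D ^ 3)).Δ ≠ 0 := by
    have e3 : (Pool.Agent.Z702.sh (5805 * D ^ 2) (-285714 * D ^ 3)).Δ =
        -16 * (4 * 5805 ^ 3 + 27 * 285714 ^ 2) * (D : ℚ) ^ 6 := by
      simp only [Pool.Agent.Z702.sh, WeierstrassCurve.Δ, WeierstrassCurve.b₂, WeierstrassCurve.b₄,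
        WeierstrassCurve.b₆, WeierstrassCurve.b₈]
      push_cast
      ring
    rw [e3]
    exact mul_ne_zero (by norm_num) (pow_ne_zero 6 (by exact_mod_cast hD0))
  exact (Pool.Agent.Z702.f_TRN _ _ _ _ _ _ (vr_sq _ _ hk) hΔ).2.1.2 hD.2

theorem kl_zero {G : Type} [AddCommGroup G] (h : ∀ x : G, x + x = 0 → x = 0) : Kl G 0 := by
  intro k
  induction k with
  | zero => intro x hx; exact hx
  | succ k ih =>
    intro x hx
    apply ih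
    apply h
    rw [← two_nsmul, ← mul_nsmul', ← pow_succ']
    exact hx

/-- **The two-primary part over the field.** -/
theorem sha_field {n : ℕ} {d : Fin n → ℤ} {M : ℤ} (hd : Ind d) (h : GO d M)
    (F : Type) [Field F] [NumberField F] {x : Fin n → F} (hx : ∀ i, x i ^ 2 = (d i : F))
    (hgen : IntermediateField.adjoin ℚ (Set.range x) = ⊤) :
    F2 (Pool.Agent.TH841.NF.D.Sha (EF (5805 * M ^ 2) (-285714 * M ^ 3) F)) ∧
      Kl (Pool.Agent.TH841.NF.D.Sha (EF (5805 * M ^ 2) (-285714 * M ^ 3) F)) n := by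
  classical
  have hd0 : ∀ i, d i ≠ 0 := by
    intro i h0
    refine hd {i} (Finset.singleton_nonempty i) ?_
    rw [Finset.prod_singleton, h0]
    exact ⟨0, rfl⟩
  have hM0 : M ≠ 0 := by
    obtain ⟨D, k, h1, h2, h3⟩ := h ∅
    rw [Finset.prod_empty, mul_one] at h3
    rw [h3]
    exact mul_ne_zero h1.1.1.ne_zero (pow_ne_zero 2 h2)
  have h3 : Kl (Pool.Agent.TH841.NF.D.Sha (EF (5805 * M ^ 2) (-285714 * M ^ 3) F)) (n + 0) := by
    refine Pool.Agent.Y723.QT.base_kl (r := x) (d := fun i => (d i : ℚ)) (fun i => ?_)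
      (fun i => by exact_mod_cast hd0 i) hgen fun T => ?_
    · rw [hx i, map_intCast]
    · rw [Pool.Agent.TH841.NF.tw_Sh]
      obtain ⟨D, k, h1, h2, h3⟩ := h T
      have h4 := sha_two ((rzs_iff h1.1).2 h1.2) h1.1.1.ne_zero h2 h3
      have e1 : (∏ i ∈ T, d i) ^ 2 * (5805 * M ^ 2) = 5805 * (M * ∏ i ∈ T, d i) ^ 2 := by ring
      have e2 : (∏ i ∈ T, d i) ^ 3 * (-285714 * M ^ 3) = -285714 * (M * ∏ i ∈ T, d i) ^ 3 := by
        ring
      rw [e1, e2]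
      exact kl_zero h4
  rw [add_zero] at h3
  have hD : 4 * (5805 * M ^ 2) ^ 3 + 27 * (-285714 * M ^ 3) ^ 2 ≠ 0 := by
    have e : 4 * (5805 * M ^ 2) ^ 3 + 27 * (-285714 * M ^ 3) ^ 2 =
        (4 * 5805 ^ 3 + 27 * 285714 ^ 2) * M ^ 6 := by ring
    rw [e]
    exact mul_ne_zero (by norm_num) (pow_ne_zero 6 hM0)
  have he : (39 * M) ^ 3 + (5805 * M ^ 2) * (39 * M) + (-285714 * M ^ 3) = 0 := by ring
  exact ⟨(Pool.Agent.Y723.QT.f2_iff (Pool.Agent.Y723.QT.tf_EF (F := F) hD he)).2 ⟨n, h3⟩, h3⟩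

end Pool.Agent.Y687.JQ
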