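import Pool.Agent.Y687.JQ.Mat

/-!
# Project JQ: the square classes of a good pair
-/

set_option autoImplicit false
set_option linter.style.haveILetI false

open Finset

namespace Pool.Agent.Y687.JQ

open Pool.Agent.Y687.MQ (AdmD matD IP disc ClG Ind)

/-- an integer which is a squarefree number times a rational square -/
theorem int_of_rat {x y z D : ℤ} (hD : Squarefree D) (hy : y ≠ 0) (hx : x ≠ 0)
    (h : x * y ^ 2 = D * z ^ 2) : ∃ m : ℤ, m ≠ 0 ∧ x = D * m ^ 2 := by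
  obtain ⟨w, hw⟩ := isSquare_of_mul (x := D * x) (y := y) (z := D * z) hy (by
    linear_combination D * h)
  have h1 : D ∣ w * w := ⟨x, hw.symm⟩
  have h2 : D ∣ w := (hD.dvd_pow_iff_dvd two_ne_zero).1 (by rw [pow_two]; exact h1)
  obtain ⟨v, rfl⟩ := h2
  have hD0 := hD.ne_zero
  have h3 : x = D * v ^ 2 := by
    apply mul_left_cancel₀ hD0
    rw [hw]
    ring
  refine ⟨v, ?_, h3⟩
  rintro rfl
  apply hx
  rw [h3]
  ring

/-- the fields of good pairs belong to the class -/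
theorem adS_of {n : ℕ} {d : Fin n → ℤ} {M : ℤ} (h : GO d M) : ∀ i, AdS (d i) := by
  intro i
  obtain ⟨D0, k0, h0, hk0, e0⟩ := h ∅
  obtain ⟨D1, k1, h1, hk1, e1⟩ := h {i}
  rw [Finset.prod_empty, mul_one] at e0
  rw [Finset.prod_singleton] at e1
  obtain ⟨hC0, hD0⟩ := of_adm h0.1
  obtain ⟨hC1, hD1⟩ := of_adm h1.1
  have hS := hC0.symmDiff hC1
  have hm := DD_mul D0.natAbs.primeFactors D1.natAbs.primeFactors
  rw [hD0, hD1] at hm
  have hz : D0 ≠ 0 := h0.1.1.ne_zero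
  have hz1 : D1 ≠ 0 := h1.1.1.ne_zero
  have hdi : d i ≠ 0 := by
    intro h2
    rw [h2, mul_zero] at e1
    exact mul_ne_zero hz1 (pow_ne_zero 2 hk1) e1.symm
  obtain ⟨m, hm0, he⟩ := int_of_rat hS.sqf (mul_ne_zero hz hk0) hdi
    (z := DD (D0.natAbs.primeFactors ∩ D1.natAbs.primeFactors) * k1) (x := d i) (y := D0 * k0) (by
      rw [e0] at e1
      linear_combination D0 * e1 + k1 ^ 2 * hm)
  exact ⟨_, m, hS.adm, hm0, he⟩

end Pool.Agent.Y687.JQ
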