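import Pool.Agent.Z705.Fin
import Pool.Agent.Y687.JQ.Mat2

/-!
# Project JQ: the matrix and the Tate-Shafarevich group (from helper700's equivalence)
-/

set_option autoImplicit false
set_option linter.style.haveILetI false

open Finset

namespace Pool.Agent.Y687.JQ

open Pool.Agent.Y687.MQ (AdmD matD IP disc ClG Ind)

/-- finite Mordell-Weil group and no element of order two in the Tate-Shafarevich group -/
def RZS (D : ℤ) : Prop :=
  Finite (Pool.Agent.Z702.sh (5805 * D ^ 2) (-285714 * D ^ 3)).toAffine.Point ∧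
    ∀ x : Pool.Agent.TH841.SH.D.Sha (Pool.Agent.Z702.sh (5805 * D ^ 2) (-285714 * D ^ 3)),
      x + x = 0 → x = 0

theorem rzs_iff {D : ℤ} (h : AdmD D) : RZS D ↔ (matD D).det ≠ 0 := by
  obtain ⟨h1, h2, h3, h4⟩ := MQ.of_admD h
  have hm : DD (IP D) = (Pool.Agent.Z700.pr (IP D) : ℤ) ∨
      DD (IP D) = -(Pool.Agent.Z700.pr (IP D) : ℤ) := by
    have e := DD_natAbs (IP D)
    exact Int.natAbs_eq_natAbs_iff.1 (by rw [e, Int.natAbs_natCast]; rfl)
  have h5 := Pool.Agent.Z704.equivS Pool.Agent.Z702.f_COC Pool.Agent.Z702.f_LOT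
    Pool.Agent.Z702.f_COB Pool.Agent.Z702.f_TOR Pool.Agent.Z702.f_LQ Pool.Agent.Z702.f_LG
    Pool.Agent.Z702.f_LP Pool.Agent.Z702.f_LIN Pool.Agent.Z702.f_TRN Pool.Agent.Z705.f_SELA
    Pool.Agent.Z705.f_SELB (Pool.Agent.Z705.cnd h1 h2)
  rw [MQ.matD_eq, MQ.matT_iff h1 h2, ← MQ.det_ind h1 h2 hm, h5]
  have e : (Pool.Agent.Z700.pr (MQ.SP D) : ℤ) * DD (IP D) = D := h4
  unfold RZS
  rw [e]

end Pool.Agent.Y687.JQ
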