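import Pool.Agent.Y687.JQ.Stm
import Pool.Agent.Y687.MQ.Fin

/-!
# Project JQ: the side of the fields

Square classes of the discriminants and symmetric differences of sets of primes.
-/

set_option autoImplicit false
set_option linter.style.haveILetI false

open Finset

namespace Pool.Agent.Y687.JQ

open Pool.Agent.Y687.MQ (AdmD matD IP disc ClG Ind)
open Pool.Agent.Y703.CQ (Cl In nr cu Sol Gd)

/-- the function on the diagonal -/
noncomputable def fD (p : ℕ) : ZMod 2 := if 8 ∣ NN 1 p then 0 else 1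

/-! ## Square classes -/

theorem sqf_unique_nat {D D' k k' : ℕ} (hD : Squarefree D) (hD' : Squarefree D') (hk : k ≠ 0)
    (hk' : k' ≠ 0) (h : D * k ^ 2 = D' * k' ^ 2) : D = D' := by
  refine Nat.eq_of_factorization_eq hD.ne_zero hD'.ne_zero fun p => ?_
  have h1 : (D * k ^ 2).factorization p = (D' * k' ^ 2).factorization p := by rw [h]
  rw [Nat.factorization_mul hD.ne_zero (pow_ne_zero 2 hk),
    Nat.factorization_mul hD'.ne_zero (pow_ne_zero 2 hk'), Finsupp.add_apply, Finsupp.add_apply,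
    Nat.factorization_pow, Nat.factorization_pow, Finsupp.smul_apply, Finsupp.smul_apply,
    smul_eq_mul, smul_eq_mul] at h1
  have h2 := hD.natFactorization_le_one p
  have h3 := hD'.natFactorization_le_one p
  omega

theorem sqf_unique {D D' k k' : ℤ} (hD : Squarefree D) (hD' : Squarefree D') (hk : k ≠ 0)
    (hk' : k' ≠ 0) (h : D * k ^ 2 = D' * k' ^ 2) : D = D' := by
  have h1 : D.natAbs * k.natAbs ^ 2 = D'.natAbs * k'.natAbs ^ 2 := by
    rw [← Int.natAbs_pow, ← Int.natAbs_pow, ← Int.natAbs_mul, ← Int.natAbs_mul, h]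
  have h2 := sqf_unique_nat (Int.squarefree_natAbs.2 hD) (Int.squarefree_natAbs.2 hD')
    (Int.natAbs_ne_zero.2 hk) (Int.natAbs_ne_zero.2 hk') h1
  rcases Int.natAbs_eq_natAbs_iff.1 h2 with e | e
  · exact e
  · exfalso
    have h3 : 0 < k ^ 2 := by positivity
    have h4 : 0 < k' ^ 2 := by positivity
    have h5 : D' ≠ 0 := hD'.ne_zero
    rw [e] at h
    have h6 : D' * (k ^ 2 + k' ^ 2) = 0 := by linarith
    rcases mul_eq_zero.1 h6 with h7 | h7
    · exact h5 h7
    · omega

theorem isSquare_of_mul {x y z : ℤ} (hy : y ≠ 0) (h : x * y ^ 2 = z ^ 2) : IsSquare x := by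
  have h1 : y ^ 2 ∣ z ^ 2 := ⟨x, by rw [← h]; ring⟩
  obtain ⟨w, rfl⟩ := (Int.pow_dvd_pow_iff (by norm_num)).1 h1
  refine ⟨w, ?_⟩
  have h2 : y ^ 2 ≠ 0 := pow_ne_zero 2 hy
  apply mul_right_cancel₀ h2
  rw [h]
  ring

/-! ## Symmetric differences -/

theorem prod_symmDiff {α : Type} [DecidableEq α] (g : α → ℤ) (S T : Finset α) :
    (∏ p ∈ S, g p) * ∏ p ∈ T, g p = (∏ p ∈ symmDiff S T, g p) * (∏ p ∈ S ∩ T, g p) ^ 2 := by
  have h1 : symmDiff S T = (S \ T) ∪ (T \ S) := rfl
  have hd : Disjoint (S \ T) (T \ S) := by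
    rw [Finset.disjoint_left]
    intro a ha hb
    exact (Finset.mem_sdiff.1 hb).2 (Finset.mem_sdiff.1 ha).1
  rw [h1, Finset.prod_union hd, ← Finset.prod_inter_mul_prod_sdiff S T,
    ← Finset.prod_inter_mul_prod_sdiff T S, Finset.inter_comm T S]
  ring

theorem card_symmDiff_mod {α : Type} [DecidableEq α] (Q : α → Prop) [DecidablePred Q]
    (S T : Finset α) : ((symmDiff S T).filter Q).card % 2 =
      ((S.filter Q).card + (T.filter Q).card) % 2 := by
  have h1 : (symmDiff S T).filter Q = (S.filter Q \ T.filter Q) ∪ (T.filter Q \ S.filter Q) := by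
    ext a
    simp only [mem_filter, mem_symmDiff, mem_union, mem_sdiff]
    tauto
  have hd : Disjoint (S.filter Q \ T.filter Q) (T.filter Q \ S.filter Q) := by
    rw [Finset.disjoint_left]
    intro a ha hb
    exact (Finset.mem_sdiff.1 hb).2 (Finset.mem_sdiff.1 ha).1
  rw [h1, Finset.card_union_of_disjoint hd]
  have h2 := Finset.card_sdiff_add_card_inter (S.filter Q) (T.filter Q)
  have h3 := Finset.card_sdiff_add_card_inter (T.filter Q) (S.filter Q)
  rw [Finset.inter_comm] at h3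
  omega

/-- the class of sets which belongs to the class of discriminants -/
def CL (S : Finset ℕ) : Prop := Cl {3, 5} {0, 1} S

theorem mem35 {q : ℕ} : q ∈ ({3, 5} : Finset ℕ) ↔ (q = 3 ∨ q = 5) := by
  rw [Finset.mem_insert, Finset.mem_singleton]

theorem CL_iff {S : Finset ℕ} : CL S ↔
    (∀ p ∈ S, Pool.Agent.Z701.Sp p ∨ (p ≠ 3 ∧ InertT p)) ∧
      (S.filter fun p => p % 8 = 5).card % 2 = 0 := by
  unfold CL Cl
  have h3 : (S.filter fun p => p % 8 = 3).card % 2 ∈ ({0, 1} : Finset ℕ) := by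
    rw [Finset.mem_insert, Finset.mem_singleton]
    omega
  constructor
  · rintro ⟨h1, h2, -⟩
    refine ⟨fun p hp => ?_, h2⟩
    rcases h1 p hp with h | ⟨k1, k2, k3, k4⟩
    · exact Or.inl h
    · exact Or.inr ⟨k2, k1, mem35.1 k3, k4⟩
  · rintro ⟨h1, h2⟩
    refine ⟨fun p hp => ?_, h2, h3⟩
    rcases h1 p hp with h | ⟨k2, k1, k3, k4⟩
    · exact Or.inl h
    · exact Or.inr ⟨k1, k2, mem35.2 k3, k4⟩

theorem CL.prime {S : Finset ℕ} (h : CL S) : ∀ p ∈ S, p.Prime := by
  intro p hp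
  rcases (CL_iff.1 h).1 p hp with h1 | h1
  · exact h1.1
  · exact h1.2.1

theorem CL.symmDiff {S T : Finset ℕ} (hS : CL S) (hT : CL T) : CL (symmDiff S T) := by
  rw [CL_iff] at hS hT ⊢
  refine ⟨fun p hp => ?_, ?_⟩
  · rcases Finset.mem_symmDiff.1 hp with h | h
    · exact hS.1 p h.1
    · exact hT.1 p h.1
  · rw [card_symmDiff_mod, Nat.add_mod, hS.2, hT.2]

theorem CL_empty : CL ∅ := by
  rw [CL_iff]
  simp

theorem CL.natAbs {S : Finset ℕ} (h : CL S) : (DD S).natAbs.primeFactors = S := by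
  rw [DD_natAbs]
  exact Nat.primeFactors_prod h.prime

theorem CL.sqf {S : Finset ℕ} (h : CL S) : Squarefree (DD S) := by
  rw [← Int.squarefree_natAbs, DD_natAbs]
  refine Finset.squarefree_prod_of_pairwise_isCoprime (fun p hp q hq hpq => ?_)
    fun p hp => (h.prime p hp).squarefree
  show IsRelPrime p q
  rw [← Nat.coprime_iff_isRelPrime]
  exact (Nat.coprime_primes (h.prime p hp) (h.prime q hq)).mpr hpq

theorem CL.leg {S : Finset ℕ} (h : CL S) : legendreSym 7 (DD S) = 1 := by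
  obtain ⟨h1, h2⟩ := CL_iff.1 h
  have e : (-1 : ℤ) ^ (S.filter fun p => p % 8 = 5).card = 1 := (Nat.even_iff.2 h2).neg_one_pow
  rw [← e]
  clear h2 e h
  induction S using Finset.induction_on with
  | empty =>
    unfold DD
    simp
  | insert a S ha ih =>
    have ih' := ih fun p hp => h1 p (Finset.mem_insert_of_mem hp)
    have h3 := h1 a (Finset.mem_insert_self a S)
    have h4 : DD (insert a S) = qs a * DD S := by
      unfold DD
      rw [Finset.prod_insert ha]
    rw [h4, legendreSym.mul, ih', Finset.filter_insert]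
    rcases h3 with h3 | ⟨h3, h5⟩
    · have e : qs a = a := by
        unfold qs
        rw [if_pos (by have := h3.2.1; omega)]
      have e2 : legendreSym 7 (a : ℤ) = 1 := by
        rw [MQ.leg_iff]
        have := h3.2.2
        omega
      rw [e, e2, one_mul, if_neg (by have := h3.2.1; omega)]
    · rw [MQ.leg_qs h5]
      split_ifs with h6
      · rw [Finset.card_insert_of_notMem (fun h => ha (Finset.mem_filter.1 h).1), pow_succ]
        ring
      · rw [one_mul]

theorem CL.adm {S : Finset ℕ} (h : CL S) : AdmD (DD S) := by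
  obtain ⟨h1, h2⟩ := CL_iff.1 h
  refine ⟨h.sqf, DD_mod fun q hq => ?_, (MQ.leg_iff _).1 h.leg, fun p hp hd => ?_⟩
  · rcases h1 q hq with h3 | h3
    · have := h3.2.1
      omega
    · have := h3.2.2.1
      omega
  · have h3 : p ∈ (DD S).natAbs.primeFactors :=
      Nat.mem_primeFactors.2 ⟨hp, Int.natCast_dvd.1 hd, Int.natAbs_ne_zero.2 h.sqf.ne_zero⟩
    rw [h.natAbs] at h3
    rcases h1 p h3 with h4 | h4
    · refine ⟨?_, Or.inl h4⟩
      rintro rfl
      exact absurd h4.2.1 (by norm_num)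
    · exact ⟨h4.1, Or.inr h4.2⟩

theorem of_adm {D : ℤ} (h : AdmD D) : CL D.natAbs.primeFactors ∧ DD D.natAbs.primeFactors = D := by
  obtain ⟨h1, h2, h3, h4⟩ := MQ.of_admD h
  have hD0 : D ≠ 0 := h.1.ne_zero
  refine ⟨CL_iff.2 ⟨fun p hp => ?_, ?_⟩, ?_⟩
  · have h5 := h.2.2.2 p (Nat.prime_of_mem_primeFactors hp)
      (Int.natCast_dvd.2 (Nat.dvd_of_mem_primeFactors hp))
    rcases h5.2 with h6 | h6
    · exact Or.inl h6
    · exact Or.inr ⟨h5.1, h6⟩
  · have e : (D.natAbs.primeFactors.filter fun p => p % 8 = 5) =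
        (IP D).filter fun q => q % 8 = 5 := by
      unfold IP
      rw [Finset.filter_filter]
      refine Finset.filter_congr fun p _ => ?_
      constructor
      · intro h; exact ⟨by omega, h⟩
      · exact fun h => h.2
    rw [e]
    exact h3.2
  · have hdis : Disjoint (MQ.SP D) (IP D) := Finset.disjoint_filter_filter_not _ _ _
    have h5 : DD D.natAbs.primeFactors = disc (MQ.SP D) (IP D) := by
      rw [← MQ.union_SP]
      unfold disc DD Pool.Agent.Z700.pr
      rw [Finset.prod_union hdis]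
      congr 1
      rw [Nat.cast_prod]
      refine Finset.prod_congr rfl fun p hp => ?_
      have := (h1 p hp).2.1
      unfold qs
      rw [if_pos (by omega)]
    rw [h5, h4]

/-- the product of two discriminants of the class -/
theorem DD_mul (S T : Finset ℕ) : DD S * DD T = DD (symmDiff S T) * (DD (S ∩ T)) ^ 2 :=
  prod_symmDiff qs S T

theorem DD_ne {S : Finset ℕ} (hS : ∀ p ∈ S, p ≠ 0) : DD S ≠ 0 := by
  rw [← Int.natAbs_ne_zero, DD_natAbs]
  exact Finset.prod_ne_zero_iff.2 hS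

theorem CL.ne {S : Finset ℕ} (h : CL S) : DD S ≠ 0 := h.sqf.ne_zero

/-- the square classes of the products -/
theorem exists_U {n : ℕ} {d : Fin n → ℤ} (hd : Ind d)
    (ha : ∀ i, ∃ D k : ℤ, AdmD D ∧ k ≠ 0 ∧ d i = D * k ^ 2) :
    ∃ U : Finset (Fin n) → Finset ℕ, Function.Injective U ∧ ∀ T, CL (U T) ∧
      ∃ k : ℤ, k ≠ 0 ∧ ∏ i ∈ T, d i = DD (U T) * k ^ 2 := by
  classical
  have h1 : ∀ T : Finset (Fin n), ∃ S : Finset ℕ, CL S ∧
      ∃ k : ℤ, k ≠ 0 ∧ ∏ i ∈ T, d i = DD S * k ^ 2 := by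
    intro T
    induction T using Finset.induction_on with
    | empty =>
      refine ⟨∅, CL_empty, 1, one_ne_zero, ?_⟩
      unfold DD
      simp
    | insert a T haT ih =>
      obtain ⟨S, hS, k, hk, he⟩ := ih
      obtain ⟨D, m, hD, hm, he'⟩ := ha a
      obtain ⟨hC, hDD⟩ := of_adm hD
      refine ⟨symmDiff D.natAbs.primeFactors S, hC.symmDiff hS,
        DD (D.natAbs.primeFactors ∩ S) * m * k, ?_, ?_⟩
      · refine mul_ne_zero (mul_ne_zero (DD_ne fun p hp => ?_) hm) hk
        exact (hC.prime p (Finset.mem_inter.1 hp).1).ne_zero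
      · rw [Finset.prod_insert haT, he, he']
        have h2 := DD_mul D.natAbs.primeFactors S
        rw [hDD] at h2
        linear_combination (m ^ 2 * k ^ 2) * h2
  choose U hU using h1
  refine ⟨U, fun T T' hTT => ?_, hU⟩
  by_contra hne
  obtain ⟨-, k, hk, he⟩ := hU T
  obtain ⟨hC, k', hk', he'⟩ := hU T'
  rw [hTT] at he
  have hne' : (symmDiff T T').Nonempty := by
    rw [Finset.nonempty_iff_ne_empty]
    intro h
    exact hne (symmDiff_eq_bot.1 h)
  refine hd _ hne' (isSquare_of_mul (y := ∏ i ∈ T ∩ T', d i) (z := DD (U T') * k * k') ?_ ?_)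
  · refine Finset.prod_ne_zero_iff.2 fun i hi => ?_
    have := Finset.prod_ne_zero_iff.1 (show ∏ i ∈ T, d i ≠ 0 by
      rw [he]
      exact mul_ne_zero hC.ne (pow_ne_zero 2 hk)) i (Finset.mem_inter.1 hi).1
    exact this
  · rw [← prod_symmDiff, he, he']
    ring

end Pool.Agent.Y687.JQ
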